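import Mathlib

set_option autoImplicit false

namespace Pool.Agent.Lib.MP_d3d358_ag.NoIso

open Matrix

theorem no_int (e : ℤ) (he : e = 1 ∨ e = -1) : ∀ n : ℕ, ∀ P Q N : ℤ, N.natAbs = n → N ≠ 0 →
    P ^ 2 - 15 * Q ^ 2 = 3 * e * N ^ 2 → False := by
  intro n
  induction n using Nat.strong_induction_on with
  | _ n ih =>
    intro P Q N hn hN h
    have key : ∀ a b : ZMod 5, (a ^ 2 = 3 * b ^ 2 ∨ a ^ 2 = -3 * b ^ 2) → a = 0 ∧ b = 0 := by decide
    have h5 : ((P : ZMod 5) ^ 2 = 3 * (N : ZMod 5) ^ 2 ∨ (P : ZMod 5) ^ 2 = -3 * (N : ZMod 5) ^ 2) := by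
      have hc := congrArg (Int.cast : ℤ → ZMod 5) h
      have h15 : (15 : ZMod 5) = 0 := by decide
      rcases he with rfl | rfl
      · left; push_cast at hc; rw [h15] at hc; linear_combination hc
      · right; push_cast at hc; rw [h15] at hc; linear_combination hc
    obtain ⟨hP, hN5⟩ := key _ _ h5
    obtain ⟨P', rfl⟩ := (ZMod.intCast_zmod_eq_zero_iff_dvd P 5).1 hP
    obtain ⟨N', rfl⟩ := (ZMod.intCast_zmod_eq_zero_iff_dvd N 5).1 hN5
    push_cast at h hn hN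
    have hQ : (5 : ℤ) ∣ Q := by
      have h1 : (5 : ℤ) ∣ 3 * Q ^ 2 := ⟨P' ^ 2 - 3 * e * N' ^ 2, by nlinarith⟩
      have hp : Prime (5 : ℤ) := Int.prime_iff_natAbs_prime.2 (by norm_num)
      rcases hp.dvd_or_dvd h1 with h3 | h3
      · norm_num at h3
      · exact hp.dvd_of_dvd_pow h3
    obtain ⟨Q', rfl⟩ := hQ
    have hN' : N' ≠ 0 := by rintro rfl; simp at hN
    refine ih N'.natAbs ?_ P' Q' N' rfl hN' (by nlinarith)
    have : 0 < N'.natAbs := Int.natAbs_pos.2 hN'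
    rw [← hn, Int.natAbs_mul]
    have h55 : (5 : ℤ).natAbs = 5 := rfl
    rw [h55]; omega

theorem no_rat (t p q : ℚ) (ht : t = 1 ∨ t = -1) : t * (p ^ 2 - 15 * q ^ 2) ≠ 3 := by
  intro h
  have hp : (p.num : ℚ) = p * p.den := (Rat.mul_den_eq_num p).symm
  have hq : (q.num : ℚ) = q * q.den := (Rat.mul_den_eq_num q).symm
  have hN : ((p.den : ℤ) * q.den) ≠ 0 := by
    have := p.den_nz; have := q.den_nz; positivity
  rcases ht with rfl | rfl
  · refine no_int 1 (Or.inl rfl) _ (p.num * q.den) (q.num * p.den) (p.den * q.den) rfl hN ?_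
    have : ((p.num * q.den : ℤ) : ℚ) ^ 2 - 15 * ((q.num * p.den : ℤ) : ℚ) ^ 2
        = 3 * 1 * ((p.den * q.den : ℤ) : ℚ) ^ 2 := by
      push_cast; rw [hp, hq]; linear_combination ((p.den : ℚ) * q.den) ^ 2 * h
    exact_mod_cast this
  · refine no_int (-1) (Or.inr rfl) _ (p.num * q.den) (q.num * p.den) (p.den * q.den) rfl hN ?_
    have : ((p.num * q.den : ℤ) : ℚ) ^ 2 - 15 * ((q.num * p.den : ℤ) : ℚ) ^ 2
        = 3 * (-1) * ((p.den * q.den : ℤ) : ℚ) ^ 2 := by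
      push_cast; rw [hp, hq]; linear_combination (-((p.den : ℚ) * q.den) ^ 2) * h
    exact_mod_cast this

/-- alternating matrix with upper entries c = (x01, x02, x03, x12, x13, x23) -/
def alt (c : Fin 6 → ℚ) : Matrix (Fin 4) (Fin 4) ℚ :=
  !![0, c 0, c 1, c 2; -c 0, 0, c 3, c 4; -c 1, -c 3, 0, c 5; -c 2, -c 4, -c 5, 0]

/-- Hodge star: x e_k e_l = (alt (st c)) k l * vol -/
def st (c : Fin 6 → ℚ) : Fin 6 → ℚ := ![c 5, -c 4, c 3, c 2, -c 1, c 0]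

def wX (a b : ℚ) (c : Fin 6 → ℚ) : Matrix (Fin 4 ⊕ Fin 4) (Fin 4 ⊕ Fin 4) ℚ :=
  fromBlocks (a • alt (st c)) 0 0 (b • alt c)

def wY (a b : ℚ) (c : Fin 6 → ℚ) : Matrix (Fin 4 ⊕ Fin 4) (Fin 4 ⊕ Fin 4) ℚ :=
  fromBlocks (a • alt c) 0 0 (b • alt (st c))

def c0 : Fin 6 → ℚ := ![1, 0, 0, 0, 0, -5]

theorem h01 : alt c0 * alt (st c0) = (5 : ℚ) • (1 : Matrix (Fin 4) (Fin 4) ℚ) := by
  ext i j; fin_cases i <;> fin_cases j <;> simp [alt, st, c0, Matrix.mul_apply, Fin.sum_univ_four]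

theorem h10 : alt (st c0) * alt c0 = (5 : ℚ) • (1 : Matrix (Fin 4) (Fin 4) ℚ) := by
  ext i j; fin_cases i <;> fin_cases j <;> simp [alt, st, c0, Matrix.mul_apply, Fin.sum_univ_four]

theorem inter {n : Type} [Fintype n] [DecidableEq n] (G X0 Y0 NX NY X Y : Matrix n n ℚ) (t k : ℚ)
    (hk : k ≠ 0) (hX : NX * X0 = k • (1 : Matrix n n ℚ)) (hY : Y0 * NY = k • (1 : Matrix n n ℚ))
    (h0 : Gᵀ * (t • Y0) * G = X0) (h : Gᵀ * (t • Y) * G = X) : G * (NX * X) = NY * Y * G := by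
  set L : Matrix n n ℚ := k⁻¹ • (NX * (Gᵀ * (t • Y0))) with hL
  have h1 : L * G = 1 := by
    rw [hL, Matrix.smul_mul, Matrix.mul_assoc, h0, hX, smul_smul, inv_mul_cancel₀ hk, one_smul]
  have h2 : G * L = 1 := mul_eq_one_comm.1 h1
  have h3 : L * (NY * Y * G) = NX * X := by
    have : Y0 * (NY * Y * G) = k • (Y * G) := by
      rw [Matrix.mul_assoc NY, ← Matrix.mul_assoc Y0, hY, Matrix.smul_mul, Matrix.one_mul]
    rw [hL, ← h]
    simp only [Matrix.smul_mul, Matrix.mul_smul, Matrix.mul_assoc] at this ⊢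
    rw [this]
    simp only [Matrix.mul_smul, smul_smul]
    congr 1
    field_simp
  rw [← h3, ← Matrix.mul_assoc, h2, Matrix.one_mul]

/-- the value equation: s_Y represents the first coefficient of s_X -/
theorem value (a b t : ℚ) (ha : a ≠ 0) (hb : b ≠ 0) (G : Matrix (Fin 4 ⊕ Fin 4) (Fin 4 ⊕ Fin 4) ℚ)
    (h : ∀ c : Fin 6 → ℚ, 5 * c 0 + c 5 = 0 → Gᵀ * (t • wY a b c) * G = wX a b c) :
    ∃ p q : ℚ, t * (b * p ^ 2 - 5 * a * q ^ 2) = a := by
  have hc0 : 5 * c0 0 + c0 5 = 0 := by simp [c0]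
  have hk : 5 * a * b ≠ 0 := by positivity
  have hX : fromBlocks (b • alt c0) 0 0 (a • alt (st c0)) * wX a b c0
      = (5 * a * b) • (1 : Matrix (Fin 4 ⊕ Fin 4) (Fin 4 ⊕ Fin 4) ℚ) := by
    rw [wX, fromBlocks_multiply, ← fromBlocks_one, fromBlocks_smul]
    simp only [Matrix.smul_mul, Matrix.mul_smul, h01, h10, smul_smul, Matrix.mul_zero,
      Matrix.zero_mul, add_zero, zero_add, smul_zero]
    congr 2 <;> ring
  have hY : wY a b c0 * fromBlocks (b • alt (st c0)) 0 0 (a • alt c0)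
      = (5 * a * b) • (1 : Matrix (Fin 4 ⊕ Fin 4) (Fin 4 ⊕ Fin 4) ℚ) := by
    rw [wY, fromBlocks_multiply, ← fromBlocks_one, fromBlocks_smul]
    simp only [Matrix.smul_mul, Matrix.mul_smul, h01, h10, smul_smul, Matrix.mul_zero,
      Matrix.zero_mul, add_zero, zero_add, smul_zero]
    congr 2 <;> ring
  obtain ⟨P, R, Q, S, rfl⟩ : ∃ P R Q S, G = fromBlocks P R Q S := ⟨_, _, _, _, (fromBlocks_toBlocks G).symm⟩
  have hab : a * b ≠ 0 := mul_ne_zero ha hb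
  have blk : ∀ c : Fin 6 → ℚ, 5 * c 0 + c 5 = 0 →
      P * (alt c0 * alt (st c)) = alt (st c0) * alt c * P ∧
      Q * (alt c0 * alt (st c)) = alt c0 * alt (st c) * Q := by
    intro c hc
    have e := inter _ _ _ _ _ _ _ t _ hk hX hY (h c0 hc0) (h c hc)
    simp only [wX, wY, fromBlocks_multiply, Matrix.smul_mul, Matrix.mul_smul, smul_smul, Matrix.mul_zero,
      Matrix.zero_mul, add_zero, zero_add, smul_zero, fromBlocks_inj] at e
    obtain ⟨e1, -, e3, -⟩ := e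
    refine ⟨smul_right_injective _ hab ?_, smul_right_injective _ hab ?_⟩
    · simpa [mul_comm] using e1
    · simpa [mul_comm] using e3
  obtain ⟨p1, q1⟩ := blk ![0, 1, 0, 0, 0, 0] (by simp)
  obtain ⟨p2, q2⟩ := blk ![0, 0, 1, 0, 0, 0] (by simp)
  obtain ⟨p3, q3⟩ := blk ![0, 0, 0, 1, 0, 0] (by simp)
  have e0 := h c0 hc0
  simp only [wX, wY, fromBlocks_transpose, fromBlocks_smul, fromBlocks_multiply, Matrix.mul_zero,
    add_zero, zero_add, smul_zero, fromBlocks_inj] at e0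
  have e01 := congrFun (congrFun e0.1 0) 1
  have f := fun (A B : Matrix (Fin 4) (Fin 4) ℚ) (hAB : A = B) (i j : Fin 4) => congrFun (congrFun hAB i) j
  have u1 := f _ _ q1 1 3; have u2 := f _ _ q1 3 3; have u3 := f _ _ q1 0 3
  have u4 := f _ _ q3 1 3; have u5 := f _ _ q3 1 1
  have v1 := f _ _ p1 0 3; have v2 := f _ _ p1 2 3; have v3 := f _ _ p2 3 2
  have v4 := f _ _ p1 3 1; have v5 := f _ _ p2 1 2
  simp [alt, st, c0, Matrix.mul_apply, Fin.sum_univ_four] at u1 u2 u3 u4 u5 v1 v2 v3 v4 v5 e01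
  have w4 : P 0 1 = -(5 * P 3 2) := by linarith
  have w5 : P 1 0 = 5 * P 3 2 := by linarith
  refine ⟨Q 3 3, P 3 2, ?_⟩
  rw [u1, u2, u3, u4, u5, v1, v2, v3, w4, w5] at e01
  linear_combination (-1 / 5 : ℚ) * e01

/-- (L1) no rational matrix carries `t • wY` to `wX` on the hyperplane `5 x01 + x23 = 0`
when `a = -3 u ^ 2`, `b = -v ^ 2` and `t = ± 1`. -/
theorem no_matrix (u v t : ℚ) (hu : u ≠ 0) (hv : v ≠ 0) (ht : t = 1 ∨ t = -1)
    (G : Matrix (Fin 4 ⊕ Fin 4) (Fin 4 ⊕ Fin 4) ℚ)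
    (h : ∀ c : Fin 6 → ℚ, 5 * c 0 + c 5 = 0 →
      Gᵀ * (t • wY (-3 * u ^ 2) (-v ^ 2) c) * G = wX (-3 * u ^ 2) (-v ^ 2) c) : False := by
  obtain ⟨p, q, e⟩ := value _ _ t (by simpa using hu) (by simpa using hv) G h
  refine no_rat t (v * p / u) q ht ?_
  field_simp
  linear_combination -e

end Pool.Agent.Lib.MP_d3d358_ag.NoIso
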